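import Pool.Agent.Q261.Subtrees
import Mathlib.Data.Fintype.Pi
import Mathlib.Data.Fintype.BigOperators
import Mathlib.Data.Rat.Defs
import Mathlib.Algebra.Order.Field.Rat
import Mathlib.Tactic

/-!
# Contracting an edge can raise the mean subtree order
-/

set_option autoImplicit false

namespace Pool.Agent.Results.MP_e83d06_co.ContractionFails

open Finset SimpleGraph Pool.Agent.Q261.Subtrees

/-- the subtrees of `G`: all subgraphs (not necessarily induced) that are trees -/
noncomputable def subtrees {V : Type} [Finite V] (G : SimpleGraph V) : Finset G.Subgraph :=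
  (Set.toFinite {T : G.Subgraph | T.coe.IsTree}).toFinset

/-- the mean subtree order `μ(G)` -/
noncomputable def mu {V : Type} [Finite V] (G : SimpleGraph V) : ℚ :=
  (∑ T ∈ subtrees G, (T.verts.ncard : ℚ)) / (subtrees G).card

/-- `G / uv`: the vertex `v` is removed and `u` becomes adjacent to all former neighbours of `u` or
`v`; the result is again a simple graph -/
def contract {V : Type} (G : SimpleGraph V) (u v : V) : SimpleGraph {w : V // w ≠ v} where
  Adj a b := a ≠ b ∧ (G.Adj a.1 b.1 ∨ (a.1 = u ∧ G.Adj v b.1) ∨ (b.1 = u ∧ G.Adj v a.1))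
  symm := ⟨by
    rintro a b ⟨h, h1 | h1 | h1⟩
    · exact ⟨h.symm, Or.inl h1.symm⟩
    · exact ⟨h.symm, Or.inr (Or.inr h1)⟩
    · exact ⟨h.symm, Or.inr (Or.inl h1)⟩⟩
  loopless := ⟨by
    rintro a ⟨h, -⟩
    exact h rfl⟩

/-! ### The graph -/

/-- vertices `x`, `y`, and for each of the `k` petals `i` the vertices `z i`, `p i` and the leaves
`l i j` for `j < m` -/
abbrev Vx (k m : ℕ) : Type := Bool ⊕ (Fin k × Option (Option (Fin m)))

variable {k m : ℕ}

@[match_pattern] abbrev vx : Vx k m := Sum.inl false
@[match_pattern] abbrev vy : Vx k m := Sum.inl true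
@[match_pattern] abbrev vz (i : Fin k) : Vx k m := Sum.inr (i, none)
@[match_pattern] abbrev vp (i : Fin k) : Vx k m := Sum.inr (i, some none)
@[match_pattern] abbrev vl (i : Fin k) (j : Fin m) : Vx k m := Sum.inr (i, some (some j))

/-- the edges `xy`, `x z_i`, `y z_i`, `x p_i`, `z_i p_i`, `z_i l_{ij}`, each in one direction -/
def base : Vx k m → Vx k m → Prop
  | vx, vy => True
  | vx, vz _ => True
  | vy, vz _ => True
  | vx, vp _ => True
  | vz i, vp j => i = j
  | vz i, vl j _ => i = j
  | _, _ => False

/-- the flower -/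
def flower (k m : ℕ) : SimpleGraph (Vx k m) where
  Adj a b := base a b ∨ base b a
  symm := ⟨fun _ _ h => h.symm⟩
  loopless := ⟨by
    rintro ((_ | _) | ⟨i, (_ | (_ | j))⟩) h <;> simp [base] at h⟩

/-- parents of `z i` -/
inductive ZP | non | x | y | p
  deriving DecidableEq

instance : Fintype ZP := ⟨{.non, .x, .y, .p}, by intro a; cases a <;> simp⟩

/-- parents of `p i` -/
inductive PP | non | x | z
  deriving DecidableEq

instance : Fintype PP := ⟨{.non, .x, .z}, by intro a; cases a <;> simp⟩

/-- types of petals: `y` absent, `y` present but not attached through the petal, `y` attached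
through the petal -/
inductive Ty | a | b | c
  deriving DecidableEq

/-- local states of a petal -/
abbrev Loc (m : ℕ) : Type := ZP × PP × Finset (Fin m)

def ok (t : Ty) (c : Loc m) : Prop :=
  match c.1 with
  | .non => c.2.2 = ∅ ∧ c.2.1 ≠ .z ∧ t ≠ .c
  | .x => True
  | .y => t = .b
  | .p => c.2.1 = .x

instance (t : Ty) (c : Loc m) : Decidable (ok t c) := by
  unfold ok; rcases c with ⟨c | c, c2, c3⟩ <;> infer_instance

def ty (ys : Option (Option (Fin k))) (i : Fin k) : Ty :=
  match ys with
  | none => .a
  | some none => .b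
  | some (some j) => if i = j then .c else .b

def dec (ys : Option (Option (Fin k))) (c : Fin k → Loc m) : Vx k m → Option (Vx k m)
  | vx => none
  | vy => match ys with
    | none => none
    | some none => some vx
    | some (some j) => some (vz j)
  | vz i => match (c i).1 with
    | .non => none
    | .x => some vx
    | .y => some vy
    | .p => some (vp i)
  | vp i => match (c i).2.1 with
    | .non => none
    | .x => some vx
    | .z => some (vz i)
  | vl i j => if j ∈ (c i).2.2 then some (vz i) else none

/-- ranks -/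
def rk (c : Fin k → Loc m) : Vx k m → ℕ
  | vx => 0
  | vy => 4
  | vz i => match (c i).1 with
    | .non => 0
    | .x => 1
    | .y => 5
    | .p => 2
  | vp i => match (c i).2.1 with
    | .non => 0
    | .x => 1
    | .z => 10
  | vl _ _ => 11

theorem dec_isPF (ys : Option (Option (Fin k))) (c : Fin k → Loc m)
    (hok : ∀ i, ok (ty ys i) (c i)) : IsPF (flower k m) vx (dec ys c) := by
  refine ⟨rfl, ?_, ?_, ⟨rk c, ?_⟩⟩
  · rintro ((_ | _) | ⟨i, (_ | (_ | j))⟩) u h
    · simp [dec] at h
    · rcases ys with _ | (_ | j)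
      · simp [dec] at h
      · simp only [dec, Option.some.injEq] at h
        subst h; simp [flower, base]
      · simp only [dec, Option.some.injEq] at h
        subst h; simp [flower, base]
    · simp only [dec] at h
      split at h
      · simp at h
      · simp only [Option.some.injEq] at h
        subst h; simp [flower, base]
      · simp only [Option.some.injEq] at h
        subst h; simp [flower, base]
      · simp only [Option.some.injEq] at h
        subst h; simp [flower, base]
    · simp only [dec] at h
      split at h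
      · simp at h
      · simp only [Option.some.injEq] at h
        subst h; simp [flower, base]
      · simp only [Option.some.injEq] at h
        subst h; simp [flower, base]
    · simp only [dec] at h
      split at h
      · simp only [Option.some.injEq] at h
        subst h; simp [flower, base]
      · simp at h
  · rintro ((_ | _) | ⟨i, (_ | (_ | j))⟩) u h
    · simp [dec] at h
    · rcases ys with _ | (_ | j)
      · simp [dec] at h
      · simp only [dec, Option.some.injEq] at h
        exact Or.inl h.symm
      · simp only [dec, Option.some.injEq] at h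
        right
        subst h
        have := hok j
        simp only [dec]
        unfold ok at this
        split at this
        · simp [ty] at this
        · rename_i h1; simp [h1]
        · rename_i h1; simp [h1]
        · rename_i h1; simp [h1]
    · have hi := hok i
      unfold ok at hi
      simp only [dec] at h
      split at h
      · simp at h
      · simp only [Option.some.injEq] at h
        exact Or.inl h.symm
      · rename_i h1
        simp only [Option.some.injEq] at h
        right
        subst h
        simp only [h1] at hi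
        rcases ys with _ | (_ | j)
        · simp [ty] at hi
        · simp [dec]
        · simp [dec]
      · rename_i h1
        simp only [Option.some.injEq] at h
        right
        subst h
        simp only [h1] at hi
        simp [dec, hi]
    · have hi := hok i
      unfold ok at hi
      simp only [dec] at h
      split at h
      · simp at h
      · simp only [Option.some.injEq] at h
        exact Or.inl h.symm
      · rename_i h1
        simp only [Option.some.injEq] at h
        right
        subst h
        simp only [dec]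
        split at hi
        · simp [h1] at hi
        · rename_i h2; simp [h2]
        · rename_i h2; simp [h2]
        · rename_i h2; simp [h2]
    · have hi := hok i
      unfold ok at hi
      simp only [dec] at h
      split at h
      · rename_i h1
        simp only [Option.some.injEq] at h
        right
        subst h
        simp only [dec]
        split at hi
        · simp [hi.1] at h1
        · rename_i h2; simp [h2]
        · rename_i h2; simp [h2]
        · rename_i h2; simp [h2]
      · simp at h
  · rintro ((_ | _) | ⟨i, (_ | (_ | j))⟩) u h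
    · simp [dec] at h
    · rcases ys with _ | (_ | j)
      · simp [dec] at h
      · simp only [dec, Option.some.injEq] at h
        subst h; simp [rk]
      · simp only [dec, Option.some.injEq] at h
        subst h
        have := hok j
        simp only [rk]
        unfold ok at this
        split at this
        · simp [ty] at this
        · rename_i h1; simp [h1]
        · simp [ty] at this
        · rename_i h1; simp [h1]
    · have hi := hok i
      unfold ok at hi
      simp only [dec] at h
      split at h
      · simp at h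
      · rename_i h1
        simp only [Option.some.injEq] at h
        subst h; simp [rk, h1]
      · rename_i h1
        simp only [Option.some.injEq] at h
        subst h; simp [rk, h1]
      · rename_i h1
        simp only [Option.some.injEq] at h
        subst h
        simp only [h1] at hi
        simp [rk, h1, hi]
    · simp only [dec] at h
      split at h
      · simp at h
      · rename_i h1
        simp only [Option.some.injEq] at h
        subst h; simp [rk, h1]
      · rename_i h1
        simp only [Option.some.injEq] at h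
        subst h
        simp only [rk, h1]
        split <;> simp
    · simp only [dec] at h
      split at h
      · simp only [Option.some.injEq] at h
        subst h
        simp only [rk]
        split <;> simp
      · simp at h


def ysOf (f : Vx k m → Option (Vx k m)) : Option (Option (Fin k)) :=
  match f vy with
  | none => none
  | some vx => some none
  | some (vz j) => some (some j)
  | some _ => none

def zOf (f : Vx k m → Option (Vx k m)) (i : Fin k) : ZP :=
  match f (vz i) with
  | none => .non
  | some vx => .x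
  | some vy => .y
  | some _ => .p

def pOf (f : Vx k m → Option (Vx k m)) (i : Fin k) : PP :=
  match f (vp i) with
  | none => .non
  | some vx => .x
  | some _ => .z

def cOf (f : Vx k m → Option (Vx k m)) (i : Fin k) : Loc m :=
  (zOf f i, pOf f i, univ.filter (fun j => (f (vl i j)).isSome))

theorem exists_dec {f : Vx k m → Option (Vx k m)} (h : IsPF (flower k m) vx f) :
    (∀ i, ok (ty (ysOf f) i) (cOf f i)) ∧ dec (ysOf f) (cOf f) = f := by
  obtain ⟨ρ, hρ⟩ := h.rank
  have no2 : ∀ a b, f a = some b → f b = some a → False := by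
    intro a b h1 h2
    have := hρ _ _ h1
    have := hρ _ _ h2
    omega
  have hl : ∀ i j, f (vl i j) = none ∨ f (vl i j) = some (vz i) := by
    intro i j
    rcases hf : f (vl i j) with _ | ((_ | _) | ⟨a, (_ | (_ | b))⟩)
    · exact Or.inl rfl
    all_goals
      have := h.adj _ _ hf
      simp only [flower, base, or_false, or_self, false_or] at this
    subst this
    exact Or.inr rfl
  have hp : ∀ i, f (vp i) = none ∨ f (vp i) = some vx ∨ f (vp i) = some (vz i) := by
    intro i
    rcases hf : f (vp i) with _ | ((_ | _) | ⟨a, (_ | (_ | b))⟩)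
    · exact Or.inl rfl
    · exact Or.inr (Or.inl rfl)
    all_goals
      have := h.adj _ _ hf
      simp only [flower, base, or_false, or_self, false_or] at this
    subst this
    exact Or.inr (Or.inr rfl)
  have hz : ∀ i, f (vz i) = none ∨ f (vz i) = some vx ∨ f (vz i) = some vy ∨
      f (vz i) = some (vp i) := by
    intro i
    rcases hf : f (vz i) with _ | ((_ | _) | ⟨a, (_ | (_ | b))⟩)
    · exact Or.inl rfl
    · exact Or.inr (Or.inl rfl)
    · exact Or.inr (Or.inr (Or.inl rfl))
    all_goals
      have := h.adj _ _ hf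
      simp only [flower, base, or_false, or_self, false_or] at this
    · subst this
      exact Or.inr (Or.inr (Or.inr rfl))
    · exfalso
      subst this
      rcases h.mem _ _ hf with h1 | h1
      · cases h1
      · rcases hl i b with h2 | h2
        · exact h1 h2
        · exact no2 _ _ hf h2
  have hy : f vy = none ∨ f vy = some vx ∨ ∃ j, f vy = some (vz j) := by
    rcases hf : f vy with _ | ((_ | _) | ⟨a, (_ | (_ | b))⟩)
    · exact Or.inl rfl
    · exact Or.inr (Or.inl rfl)
    all_goals
      have := h.adj _ _ hf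
      simp only [flower, base, or_false, or_self, false_or] at this
    exact Or.inr (Or.inr ⟨a, rfl⟩)
  have hne : ∀ a b, f a = some b → b ≠ vx → f b ≠ none := by
    intro a b h1 h2
    exact (h.mem a b h1).resolve_left h2
  constructor
  · intro i
    unfold ok
    rcases hz i with h1 | h1 | h1 | h1
    · have hc : (cOf f i).1 = .non := by simp [cOf, zOf, h1]
      simp only [hc]
      refine ⟨?_, ?_, ?_⟩
      · simp only [cOf, filter_eq_empty_iff, mem_univ, true_implies]
        intro j hj
        rcases hl i j with h2 | h2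
        · rw [h2] at hj; simp at hj
        · exact hne _ _ h2 (by simp) h1
      · rcases hp i with h2 | h2 | h2
        · simp [cOf, pOf, h2]
        · simp [cOf, pOf, h2]
        · exact absurd h1 (hne _ _ h2 (by simp))
      · rcases hy with h2 | h2 | ⟨j, h2⟩
        · simp [ysOf, h2, ty]
        · simp [ysOf, h2, ty]
        · have : j ≠ i := by
            rintro rfl
            exact hne _ _ h2 (by simp) h1
          simp [ysOf, h2, ty, Ne.symm this]
    · have hc : (cOf f i).1 = .x := by simp [cOf, zOf, h1]
      simp only [hc]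
    · have hc : (cOf f i).1 = .y := by simp [cOf, zOf, h1]
      simp only [hc]
      rcases hy with h2 | h2 | ⟨j, h2⟩
      · exact absurd h2 (hne _ _ h1 (by simp))
      · simp [ysOf, h2, ty]
      · have : j ≠ i := by
          rintro rfl
          exact no2 _ _ h1 h2
        simp [ysOf, h2, ty, Ne.symm this]
    · have hc : (cOf f i).1 = .p := by simp [cOf, zOf, h1]
      simp only [hc]
      rcases hp i with h2 | h2 | h2
      · exact absurd h2 (hne _ _ h1 (by simp))
      · simp [cOf, pOf, h2]
      · exact absurd (no2 _ _ h1 h2) (by simp)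
  · funext v
    rcases v with (_ | _) | ⟨i, (_ | (_ | j))⟩
    · exact h.root.symm
    · rcases hy with h2 | h2 | ⟨j, h2⟩
      · simp only [dec, ysOf, h2]
      · simp only [dec, ysOf, h2]
      · simp only [dec, ysOf, h2]
    · rcases hz i with h1 | h1 | h1 | h1
      · simp only [dec, cOf, zOf, h1]
      · simp only [dec, cOf, zOf, h1]
      · simp only [dec, cOf, zOf, h1]
      · simp only [dec, cOf, zOf, h1]
    · rcases hp i with h1 | h1 | h1
      · simp only [dec, cOf, pOf, h1]
      · simp only [dec, cOf, pOf, h1]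
      · simp only [dec, cOf, pOf, h1]
    · rcases hl i j with h1 | h1
      · simp [dec, cOf, h1]
      · simp [dec, cOf, h1]

/-- the codes are determined by the parent function -/
theorem ysOf_dec (ys : Option (Option (Fin k))) (c : Fin k → Loc m) : ysOf (dec ys c) = ys := by
  rcases ys with _ | (_ | j) <;> rfl

theorem cOf_dec (ys : Option (Option (Fin k))) (c : Fin k → Loc m) : cOf (dec ys c) = c := by
  funext i
  rcases hc : c i with ⟨a, b, l⟩
  simp only [cOf, Prod.mk.injEq]
  refine ⟨?_, ?_, ?_⟩
  · cases a <;> simp [zOf, dec, hc]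
  · cases b <;> simp [pOf, dec, hc]
  · ext j
    simp only [mem_filter, mem_univ, true_and, dec, hc]
    split <;> simp_all


/-! ### Sums over the subtrees containing `x` -/

theorem mem_subtrees {V : Type} [Finite V] {G : SimpleGraph V} {T : G.Subgraph} :
    T ∈ subtrees G ↔ T.coe.IsTree := by
  simp [subtrees]

open Classical in
/-- the subtree with a given code -/
noncomputable def sub (ys : Option (Option (Fin k))) (c : Fin k → Loc m) :
    (flower k m).Subgraph :=
  if h : IsPF (flower k m) vx (dec ys c) then toSub h else ⊥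

theorem sub_eq {ys : Option (Option (Fin k))} {c : Fin k → Loc m}
    (h : IsPF (flower k m) vx (dec ys c)) : sub ys c = toSub h := by
  unfold sub; rw [dif_pos h]

/-- the codes -/
def codes (ys : Option (Option (Fin k))) : Finset (Fin k → Loc m) :=
  Fintype.piFinset (fun i => univ.filter (fun c => ok (ty ys i) c))

theorem mem_codes {ys : Option (Option (Fin k))} {c : Fin k → Loc m} :
    c ∈ codes ys ↔ ∀ i, ok (ty ys i) (c i) := by
  simp [codes]

open Classical in
theorem sum_x (F : (flower k m).Subgraph → ℚ) :
    ∑ T ∈ (subtrees (flower k m)).filter (fun T => vx ∈ T.verts), F T =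
      ∑ ys : Option (Option (Fin k)), ∑ c ∈ (codes ys : Finset (Fin k → Loc m)), F (sub ys c) := by
  rw [Finset.sum_sigma']
  symm
  refine Finset.sum_bij (fun p _ => sub p.1 p.2) ?_ ?_ ?_ ?_
  · rintro ⟨ys, c⟩ h
    simp only [mem_sigma, mem_univ, true_and, mem_codes] at h
    rw [mem_filter, mem_subtrees, sub_eq (dec_isPF ys c h)]
    exact ⟨toSub_isTree _, Or.inl rfl⟩
  · rintro ⟨ys, c⟩ h ⟨ys', c'⟩ h' heq
    simp only [mem_sigma, mem_univ, true_and, mem_codes] at h h'
    simp only [sub_eq (dec_isPF ys c h), sub_eq (dec_isPF ys' c' h')] at heq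
    have h1 := toSub_injective _ _ heq
    have h2 : ys = ys' := by rw [← ysOf_dec ys c, h1, ysOf_dec]
    have h3 : c = c' := by rw [← cOf_dec ys c, h1, cOf_dec]
    rw [h2, h3]
  · intro T hT
    rw [mem_filter, mem_subtrees] at hT
    obtain ⟨f, hf, rfl⟩ := exists_toSub T hT.1 hT.2
    obtain ⟨h1, h2⟩ := exists_dec hf
    refine ⟨⟨ysOf f, cOf f⟩, ?_, ?_⟩
    · simp only [mem_sigma, mem_univ, true_and, mem_codes]
      exact h1
    · change sub (ysOf f) (cOf f) = _
      rw [sub_eq (dec_isPF _ _ h1)]
      congr 1
  · intro p _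
    rfl

theorem y_mem {ys : Option (Option (Fin k))} {c : Fin k → Loc m}
    (h : IsPF (flower k m) vx (dec ys c)) : vy ∈ (sub ys c).verts ↔ ys ≠ none := by
  rw [sub_eq h, mem_toSub]
  rcases ys with _ | (_ | j)
  · simp [dec]
  · simp [dec]
  · simp [dec]

/-- the number of vertices of a petal in a state -/
def szl (c : Loc m) : ℕ :=
  (if c.1 = .non then 0 else 1) + (if c.2.1 = .non then 0 else 1) + c.2.2.card

theorem ncard_sub {ys : Option (Option (Fin k))} {c : Fin k → Loc m}
    (h : IsPF (flower k m) vx (dec ys c)) :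
    (sub ys c).verts.ncard = 1 + (if ys = none then 0 else 1) + ∑ i, szl (c i) := by
  classical
  rw [sub_eq h]
  have h1 : (toSub h).verts = ((univ : Finset (Vx k m)).filter
      (fun v => v = vx ∨ dec ys c v ≠ none) : Set (Vx k m)) := by
    ext v
    simp [mem_toSub]
  rw [h1, Set.ncard_coe_finset, card_filter, Fintype.sum_sum_type, Fintype.sum_prod_type,
    Fintype.sum_bool]
  congr 1
  · have h2 : ((vy : Vx k m) = vx ∨ dec ys c vy ≠ none) ↔ ys ≠ none := by
      rcases ys with _ | (_ | j) <;> simp [dec]
    simp only [h2]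
    by_cases h3 : ys = none <;> simp [h3]
  · refine sum_congr rfl (fun i _ => ?_)
    rw [Fintype.sum_option, Fintype.sum_option]
    unfold szl
    rw [← add_assoc]
    congr 1
    · congr 1
      · rcases h3 : (c i).1 <;> simp [dec, h3]
      · rcases h3 : (c i).2.1 <;> simp [dec, h3]
    · rw [← card_filter]
      congr 1
      ext j
      simp [dec]


/-! ### Counting -/

theorem sum_pi {α : Type} [DecidableEq α] (t : Fin k → Finset α) (s : α → ℚ) :
    ∑ c ∈ Fintype.piFinset t, ∑ i, s (c i) =
      ∑ i, (∑ a ∈ t i, s a) * ∏ j ∈ univ.erase i, ((t j).card : ℚ) := by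
  rw [Finset.sum_comm]
  refine sum_congr rfl (fun i _ => ?_)
  have h := Finset.prod_univ_sum t (fun j a => if j = i then s a else (1 : ℚ))
  have h1 : ∀ p : Fin k → α, ∏ x, (if x = i then s (p x) else (1 : ℚ)) = s (p i) := by
    intro p
    rw [Finset.prod_ite_eq' univ i (fun x => s (p x))]
    simp
  simp only [h1] at h
  rw [← h, ← Finset.mul_prod_erase univ _ (mem_univ i)]
  congr 1
  · simp
  · refine prod_congr rfl (fun j hj => ?_)
    rw [mem_erase] at hj
    simp [hj.1]

/-- the number of local states of a given type, and the total size of these states -/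
def cnt (m : ℕ) (t : Ty) : ℕ := (univ.filter (fun c : Loc m => ok t c)).card

def tot (m : ℕ) (t : Ty) : ℕ := ∑ c ∈ univ.filter (fun c : Loc m => ok t c), szl c

theorem card_codes_const {ys : Option (Option (Fin k))} {t : Ty} (h : ∀ i, ty ys i = t) :
    ((codes ys : Finset (Fin k → Loc m)).card : ℚ) = (cnt m t : ℚ) ^ k := by
  unfold codes
  rw [Fintype.card_piFinset]
  simp only [h]
  rw [prod_const, card_univ, Fintype.card_fin]
  push_cast
  rfl

theorem sum_codes_const {ys : Option (Option (Fin k))} {t : Ty} (h : ∀ i, ty ys i = t) :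
    ∑ c ∈ (codes ys : Finset (Fin k → Loc m)), ∑ i, (szl (c i) : ℚ) =
      k * ((tot m t : ℚ) * (cnt m t : ℚ) ^ (k - 1)) := by
  unfold codes
  refine (sum_pi _ (fun c : Loc m => (szl c : ℚ))).trans ?_
  simp only [h]
  have h1 : ∀ i : Fin k, (∑ a ∈ univ.filter (fun c : Loc m => ok t c), (szl a : ℚ)) *
      ∏ j ∈ univ.erase i, ((univ.filter (fun c : Loc m => ok t c)).card : ℚ) =
      (tot m t : ℚ) * (cnt m t : ℚ) ^ (k - 1) := by
    intro i
    rw [prod_const, card_erase_of_mem (mem_univ i), card_univ, Fintype.card_fin]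
    unfold tot cnt
    push_cast
    rfl
  rw [sum_congr rfl (fun i _ => h1 i), sum_const, card_univ, Fintype.card_fin, nsmul_eq_mul]

theorem ty_some (i j : Fin k) : ty (some (some j)) i = if i = j then Ty.c else Ty.b := rfl

theorem card_codes_some (j : Fin k) :
    ((codes (some (some j)) : Finset (Fin k → Loc m)).card : ℚ) =
      cnt m .c * (cnt m .b : ℚ) ^ (k - 1) := by
  unfold codes
  rw [Fintype.card_piFinset]
  push_cast
  rw [← Finset.mul_prod_erase univ _ (mem_univ j)]
  congr 1
  · rw [ty_some, if_pos rfl]; rfl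
  · rw [prod_congr rfl (g := fun _ => (cnt m .b : ℚ))]
    · rw [prod_const, card_erase_of_mem (mem_univ j), card_univ, Fintype.card_fin]
    · intro i hi
      rw [mem_erase] at hi
      rw [ty_some, if_neg hi.1]; rfl

theorem sum_codes_some (j : Fin k) :
    ∑ c ∈ (codes (some (some j)) : Finset (Fin k → Loc m)), ∑ i, (szl (c i) : ℚ) =
      tot m .c * (cnt m .b : ℚ) ^ (k - 1) +
        (k - 1 : ℕ) * (tot m .b * (cnt m .c * (cnt m .b : ℚ) ^ (k - 2))) := by
  unfold codes
  refine (sum_pi _ (fun c : Loc m => (szl c : ℚ))).trans ?_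
  rw [← Finset.add_sum_erase univ _ (mem_univ j)]
  congr 1
  · congr 1
    · rw [ty_some, if_pos rfl]; unfold tot; push_cast; rfl
    · rw [prod_congr rfl (g := fun _ => (cnt m .b : ℚ))]
      · rw [prod_const, card_erase_of_mem (mem_univ j), card_univ, Fintype.card_fin]
      · intro i hi
        rw [mem_erase] at hi
        rw [ty_some, if_neg hi.1]; rfl
  · rw [sum_congr rfl (g := fun _ => (tot m .b * (cnt m .c * (cnt m .b : ℚ) ^ (k - 2)) : ℚ))]
    · rw [sum_const, card_erase_of_mem (mem_univ j), card_univ, Fintype.card_fin, nsmul_eq_mul]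
    · intro i hi
      rw [mem_erase] at hi
      congr 1
      · rw [ty_some, if_neg hi.1]; unfold tot; push_cast; rfl
      · have hj : j ∈ univ.erase i := by
          rw [mem_erase]; exact ⟨Ne.symm hi.1, mem_univ _⟩
        rw [← Finset.mul_prod_erase _ _ hj]
        congr 1
        · rw [ty_some, if_pos rfl]; rfl
        · rw [prod_congr rfl (g := fun _ => (cnt m .b : ℚ))]
          · rw [prod_const, card_erase_of_mem hj, card_erase_of_mem (mem_univ i), card_univ,
              Fintype.card_fin]
            congr 1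
          · intro l hl
            rw [mem_erase] at hl
            rw [ty_some, if_neg hl.1]; rfl

/-- the number of subtrees containing `x` but not `y`, and their total order -/
def aN (k m : ℕ) : ℚ := (cnt m .a : ℚ) ^ k
def aS (k m : ℕ) : ℚ := (cnt m .a : ℚ) ^ k + k * ((tot m .a : ℚ) * (cnt m .a : ℚ) ^ (k - 1))

/-- the number of subtrees containing `x` and `y`, and their total order -/
def bN (k m : ℕ) : ℚ := (cnt m .b : ℚ) ^ k + k * (cnt m .c * (cnt m .b : ℚ) ^ (k - 1))
def bS (k m : ℕ) : ℚ := 2 * bN k m + k * ((tot m .b : ℚ) * (cnt m .b : ℚ) ^ (k - 1)) +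
  k * (tot m .c * (cnt m .b : ℚ) ^ (k - 1) +
    (k - 1 : ℕ) * (tot m .b * (cnt m .c * (cnt m .b : ℚ) ^ (k - 2))))

open Classical in
theorem sum_x_no_y (F : ℕ → ℚ) :
    ∑ T ∈ (subtrees (flower k m)).filter (fun T => vx ∈ T.verts ∧ vy ∉ T.verts),
      F T.verts.ncard = ∑ c ∈ (codes none : Finset (Fin k → Loc m)), F (1 + ∑ i, szl (c i)) := by
  have h := sum_x (k := k) (m := m) (fun T => if vy ∉ T.verts then F T.verts.ncard else 0)
  rw [← filter_filter, sum_filter, h, Fintype.sum_option]
  have h1 : ∀ ys : Option (Fin k), ∑ c ∈ (codes (some ys) : Finset (Fin k → Loc m)),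
      (if vy ∉ (sub (some ys) c).verts then F (sub (some ys) c).verts.ncard else 0) = 0 := by
    intro ys
    refine sum_eq_zero (fun c hc => ?_)
    rw [if_neg]
    rw [not_not, y_mem (dec_isPF _ _ (mem_codes.1 hc))]
    simp
  rw [sum_congr rfl (fun ys _ => h1 ys), sum_const_zero, add_zero]
  refine sum_congr rfl (fun c hc => ?_)
  have hpf := dec_isPF _ _ (mem_codes.1 hc)
  rw [if_pos, ncard_sub hpf]
  · simp
  · rw [y_mem hpf]; simp

open Classical in
theorem sum_x_y (F : ℕ → ℚ) :
    ∑ T ∈ (subtrees (flower k m)).filter (fun T => vx ∈ T.verts ∧ vy ∈ T.verts),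
      F T.verts.ncard =
      ∑ c ∈ (codes (some none) : Finset (Fin k → Loc m)), F (2 + ∑ i, szl (c i)) +
      ∑ j : Fin k, ∑ c ∈ (codes (some (some j)) : Finset (Fin k → Loc m)),
        F (2 + ∑ i, szl (c i)) := by
  have h := sum_x (k := k) (m := m) (fun T => if vy ∈ T.verts then F T.verts.ncard else 0)
  rw [← filter_filter, sum_filter, h, Fintype.sum_option, Fintype.sum_option]
  have h1 : ∑ c ∈ (codes none : Finset (Fin k → Loc m)),
      (if vy ∈ (sub none c).verts then F (sub none c).verts.ncard else 0) = 0 := by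
    refine sum_eq_zero (fun c hc => ?_)
    rw [if_neg]
    rw [y_mem (dec_isPF _ _ (mem_codes.1 hc))]
    simp
  have h2 : ∀ ys : Option (Fin k), ∑ c ∈ (codes (some ys) : Finset (Fin k → Loc m)),
      (if vy ∈ (sub (some ys) c).verts then F (sub (some ys) c).verts.ncard else 0) =
      ∑ c ∈ (codes (some ys) : Finset (Fin k → Loc m)), F (2 + ∑ i, szl (c i)) := by
    intro ys
    refine sum_congr rfl (fun c hc => ?_)
    have hpf := dec_isPF _ _ (mem_codes.1 hc)
    rw [if_pos, ncard_sub hpf]
    · simp
    · rw [y_mem hpf]; simp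
  rw [h1, zero_add, h2, sum_congr rfl (fun j _ => h2 (some j))]

open Classical in
theorem card_x_no_y : ((((subtrees (flower k m)).filter
    (fun T => vx ∈ T.verts ∧ vy ∉ T.verts)).card : ℕ) : ℚ) = aN k m := by
  have h := sum_x_no_y (k := k) (m := m) (fun _ => 1)
  rw [sum_const, sum_const, nsmul_eq_mul, nsmul_eq_mul, mul_one, mul_one] at h
  rw [h, card_codes_const (t := .a) (fun _ => rfl)]
  rfl

open Classical in
theorem ord_x_no_y : ∑ T ∈ (subtrees (flower k m)).filter
    (fun T => vx ∈ T.verts ∧ vy ∉ T.verts), (T.verts.ncard : ℚ) = aS k m := by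
  have h := sum_x_no_y (k := k) (m := m) (fun n => n)
  rw [h]
  push_cast
  rw [sum_add_distrib, sum_codes_const (t := .a) (fun _ => rfl), sum_const, nsmul_eq_mul, mul_one,
    card_codes_const (t := .a) (fun _ => rfl)]
  rfl

open Classical in
theorem card_x_y : ((((subtrees (flower k m)).filter
    (fun T => vx ∈ T.verts ∧ vy ∈ T.verts)).card : ℕ) : ℚ) = bN k m := by
  have h := sum_x_y (k := k) (m := m) (fun _ => 1)
  rw [sum_const, sum_const, nsmul_eq_mul, nsmul_eq_mul, mul_one, mul_one] at h
  rw [h, card_codes_const (t := .b) (fun _ => rfl)]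
  simp only [sum_const, nsmul_eq_mul, mul_one]
  rw [sum_congr rfl (fun j _ => card_codes_some j), sum_const, card_univ, Fintype.card_fin,
    nsmul_eq_mul]
  rfl

open Classical in
theorem ord_x_y : ∑ T ∈ (subtrees (flower k m)).filter
    (fun T => vx ∈ T.verts ∧ vy ∈ T.verts), (T.verts.ncard : ℚ) = bS k m := by
  have h := sum_x_y (k := k) (m := m) (fun n => n)
  rw [h]
  push_cast
  simp only [sum_add_distrib]
  rw [sum_codes_const (t := .b) (fun _ => rfl), sum_const, nsmul_eq_mul,
    card_codes_const (t := .b) (fun _ => rfl)]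
  simp only [sum_const, nsmul_eq_mul]
  rw [sum_congr rfl (fun j _ => sum_codes_some j), ← sum_mul,
    sum_congr rfl (fun j _ => card_codes_some j)]
  simp only [sum_const, card_univ, Fintype.card_fin, nsmul_eq_mul]
  unfold bS bN
  ring


/-! ### Subtrees avoiding `x` -/

/-- if the parent functions are all restrictions of one function, there are few subtrees -/
theorem card_le_of_parent {V : Type} [Fintype V] [DecidableEq V] {G : SimpleGraph V} (r : V)
    (g : V → V) (U : Finset V) (S : Finset G.Subgraph)
    (hS : ∀ T ∈ S, T.coe.IsTree ∧ r ∈ T.verts ∧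
      ∀ (f : V → Option V) (h : IsPF G r f), toSub h = T → ∀ v u, f v = some u → v ∈ U ∧ u = g v) :
    S.card ≤ 2 ^ U.card := by
  classical
  let F : Finset V → G.Subgraph := fun s =>
    if h : IsPF G r (fun v => if v ∈ s then some (g v) else none) then toSub h else ⊥
  have hsub : S ⊆ U.powerset.image F := by
    intro T hT
    obtain ⟨h1, h2, h3⟩ := hS T hT
    obtain ⟨f, hf, h0⟩ := exists_toSub T h1 h2
    have h4 := h3 f hf h0
    have h5 : (fun v => if v ∈ U.filter (fun v => f v ≠ none) then some (g v) else none) = f := by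
      funext v
      by_cases hv : f v = none
      · simp [hv]
      · obtain ⟨u, hu⟩ := Option.ne_none_iff_exists'.1 hv
        obtain ⟨h6, h7⟩ := h4 v u hu
        simp [hu, h6, h7]
    refine mem_image.2 ⟨U.filter (fun v => f v ≠ none), by simp, ?_⟩
    simp only [F]
    have h6 : IsPF G r (fun v => if v ∈ U.filter (fun v => f v ≠ none) then some (g v) else none) := by
      rw [h5]; exact hf
    rw [dif_pos h6, ← h0]
    congr 1
  calc S.card ≤ (U.powerset.image F).card := card_le_card hsub
    _ ≤ U.powerset.card := card_image_le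
    _ = 2 ^ U.card := card_powerset _

def par0 : Vx k m → Vx k m
  | vx => vx
  | vy => vx
  | vz _ => vy
  | vp i => vz i
  | vl i _ => vz i

theorem parent_eq {f : Vx k m → Option (Vx k m)} {r : Vx k m} (h : IsPF (flower k m) r f)
    (hr : r = vy ∨ ∃ i, r = vz i) (hx : f vx = none) (hy : f vy = none) :
    ∀ v u, f v = some u → u = par0 v := by
  have no2 : ∀ a b, f a = some b → f b ≠ some a := by
    intro a b h1 h2
    obtain ⟨ρ, hρ⟩ := h.rank
    have h3 := hρ a b h1
    have h4 := hρ b a h2
    omega
  have nox : ∀ a, f a ≠ some vx := by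
    intro a h1
    rcases h.mem _ _ h1 with h2 | h2
    · rcases hr with h3 | ⟨i, h3⟩ <;> rw [h3] at h2 <;> cases h2
    · exact h2 hx
  have hl : ∀ i j, f (vl i j) = none ∨ f (vl i j) = some (vz i) := by
    intro i j
    rcases hf : f (vl i j) with _ | ((_ | _) | ⟨a, (_ | (_ | b))⟩)
    · exact Or.inl rfl
    all_goals
      have := h.adj _ _ hf
      simp only [flower, base, or_false, or_self, false_or] at this
    subst this
    exact Or.inr rfl
  have hp : ∀ i, f (vp i) = none ∨ f (vp i) = some (vz i) := by
    intro i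
    rcases hf : f (vp i) with _ | ((_ | _) | ⟨a, (_ | (_ | b))⟩)
    · exact Or.inl rfl
    · exact absurd hf (nox _)
    all_goals
      have := h.adj _ _ hf
      simp only [flower, base, or_false, or_self, false_or] at this
    subst this
    exact Or.inr rfl
  have hz : ∀ i, f (vz i) = none ∨ f (vz i) = some vy := by
    intro i
    rcases hf : f (vz i) with _ | ((_ | _) | ⟨a, (_ | (_ | b))⟩)
    · exact Or.inl rfl
    · exact absurd hf (nox _)
    · exact Or.inr rfl
    all_goals
      have := h.adj _ _ hf
      simp only [flower, base, or_false, or_self, false_or] at this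
    · exfalso
      subst this
      rcases h.mem _ _ hf with h1 | h1
      · rcases hr with h3 | ⟨i, h3⟩ <;> rw [h3] at h1 <;> cases h1
      · rcases hp i with h2 | h2
        · exact h1 h2
        · exact no2 _ _ hf h2
    · exfalso
      subst this
      rcases h.mem _ _ hf with h1 | h1
      · rcases hr with h3 | ⟨i, h3⟩ <;> rw [h3] at h1 <;> cases h1
      · rcases hl i b with h2 | h2
        · exact h1 h2
        · exact no2 _ _ hf h2
  intro v u hv
  rcases v with (_ | _) | ⟨i, (_ | (_ | j))⟩
  · rw [hx] at hv; cases hv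
  · rw [hy] at hv; cases hv
  · rcases hz i with h1 | h1
    · rw [h1] at hv; cases hv
    · rw [h1] at hv; exact (Option.some.inj hv).symm
  · rcases hp i with h1 | h1
    · rw [h1] at hv; cases hv
    · rw [h1] at hv; exact (Option.some.inj hv).symm
  · rcases hl i j with h1 | h1
    · rw [h1] at hv; cases hv
    · rw [h1] at hv; exact (Option.some.inj hv).symm

/-- the vertices of a petal other than `z i` -/
def pet (i : Fin k) : Finset (Vx k m) := univ.image (fun o : Option (Fin m) => Sum.inr (i, some o))

theorem card_pet (i : Fin k) : (pet (m := m) i).card ≤ m + 1 := by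
  unfold pet
  refine card_image_le.trans ?_
  simp

theorem parent_eq_z {f : Vx k m → Option (Vx k m)} {i : Fin k} (h : IsPF (flower k m) (vz i) f)
    (hx : f vx = none) (hy : f vy = none) :
    ∀ v u, f v = some u → v ∈ pet (m := m) i ∧ u = vz i := by
  have h0 := parent_eq h (Or.inr ⟨i, rfl⟩) hx hy
  have hz : ∀ a, f (vz a) = none := by
    intro a
    by_contra hc
    obtain ⟨u, hu⟩ := Option.ne_none_iff_exists'.1 hc
    have h1 := h0 _ _ hu
    subst h1
    rcases h.mem _ _ hu with h2 | h2
    · cases h2
    · exact h2 hy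
  intro v u hv
  have h1 := h0 v u hv
  rcases v with (_ | _) | ⟨a, (_ | (_ | j))⟩
  · rw [hx] at hv; cases hv
  · rw [hy] at hv; cases hv
  · rw [hz] at hv; cases hv
  · have h2 : u = vz a := h1
    subst h2
    rcases h.mem _ _ hv with h3 | h3
    · have : a = i := by simpa using h3
      subst this
      exact ⟨by simp [pet], rfl⟩
    · exact absurd (hz a) h3
  · have h2 : u = vz a := h1
    subst h2
    rcases h.mem _ _ hv with h3 | h3
    · have : a = i := by simpa using h3
      subst this
      exact ⟨by simp [pet], rfl⟩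
    · exact absurd (hz a) h3

theorem card_V : Fintype.card (Vx k m) = 2 + k * (m + 2) := by
  simp [Fintype.card_sum, Fintype.card_prod, Fintype.card_option]

open Classical in
theorem card_y_no_x : ((subtrees (flower k m)).filter
    (fun T => vx ∉ T.verts ∧ vy ∈ T.verts)).card ≤ 2 ^ (2 + k * (m + 2)) := by
  rw [← card_V, ← card_univ]
  refine card_le_of_parent vy par0 univ _ ?_
  intro T hT
  rw [mem_filter, mem_subtrees] at hT
  refine ⟨hT.1, hT.2.2, ?_⟩
  rintro f h rfl v u hv
  refine ⟨mem_univ _, parent_eq h (Or.inl rfl) ?_ h.root v u hv⟩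
  by_contra hc
  exact hT.2.1 (Or.inr hc)

open Classical in
theorem card_no_xy : ((subtrees (flower k m)).filter
    (fun T => vx ∉ T.verts ∧ vy ∉ T.verts)).card ≤ k * 2 ^ (m + 1) + (2 + k * (m + 2)) := by
  set S := (subtrees (flower k m)).filter (fun T => vx ∉ T.verts ∧ vy ∉ T.verts) with hS
  have hsub : S ⊆ (univ.biUnion fun i : Fin k => S.filter (fun T => vz i ∈ T.verts)) ∪
      (univ.biUnion fun v : Vx k m => S.filter (fun T => v ∈ T.verts ∧ ∀ i, vz i ∉ T.verts)) := by
    intro T hT
    rw [mem_union]
    by_cases h : ∃ i, vz i ∈ T.verts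
    · obtain ⟨i, hi⟩ := h
      left
      rw [mem_biUnion]
      exact ⟨i, mem_univ _, mem_filter.2 ⟨hT, hi⟩⟩
    · right
      push Not at h
      have h1 : T.coe.IsTree := by
        rw [hS, mem_filter, mem_subtrees] at hT
        exact hT.1
      obtain ⟨⟨v, hv⟩⟩ := h1.1.nonempty
      rw [mem_biUnion]
      exact ⟨v, mem_univ _, mem_filter.2 ⟨hT, hv, h⟩⟩
  have h1 : ∀ i : Fin k, (S.filter (fun T => vz i ∈ T.verts)).card ≤ 2 ^ (m + 1) := by
    intro i
    refine (card_le_of_parent (vz i) (fun _ => vz i) (pet i) _ ?_).trans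
      (Nat.pow_le_pow_right (by norm_num) (card_pet i))
    intro T hT
    rw [mem_filter, hS, mem_filter, mem_subtrees] at hT
    obtain ⟨⟨h1, h2, h3⟩, h4⟩ := hT
    refine ⟨h1, h4, ?_⟩
    rintro f h rfl
    refine parent_eq_z h ?_ ?_
    · by_contra hc
      exact h2 (Or.inr hc)
    · by_contra hc
      exact h3 (Or.inr hc)
  have h2 : ∀ v : Vx k m, (S.filter (fun T => v ∈ T.verts ∧ ∀ i, vz i ∉ T.verts)).card ≤ 1 := by
    intro v
    refine (card_le_of_parent v (fun _ => v) ∅ _ ?_).trans (by simp)
    intro T hT
    rw [mem_filter, hS, mem_filter, mem_subtrees] at hT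
    obtain ⟨⟨h1, h2, h3⟩, h4, h5⟩ := hT
    refine ⟨h1, h4, ?_⟩
    rintro f h rfl a b hab
    exfalso
    have ha : a ∈ (toSub h).verts := Or.inr (by rw [hab]; simp)
    have hb : b ∈ (toSub h).verts := h.mem _ _ hab
    have hadj := h.adj _ _ hab
    rcases a with (_ | _) | ⟨a, (_ | (_ | j))⟩
    · exact h2 ha
    · exact h3 ha
    · exact h5 _ ha
    · rcases b with (_ | _) | ⟨b, (_ | (_ | j))⟩
      · exact h2 hb
      · exact h3 hb
      · exact h5 _ hb
      · simp [flower, base] at hadj
      · simp [flower, base] at hadj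
    · rcases b with (_ | _) | ⟨b, (_ | (_ | j))⟩
      · exact h2 hb
      · exact h3 hb
      · exact h5 _ hb
      · simp [flower, base] at hadj
      · simp [flower, base] at hadj
  calc S.card ≤ _ := card_le_card hsub
    _ ≤ _ + _ := card_union_le _ _
    _ ≤ (∑ i : Fin k, (S.filter (fun T => vz i ∈ T.verts)).card) +
        ∑ v : Vx k m, (S.filter (fun T => v ∈ T.verts ∧ ∀ i, vz i ∉ T.verts)).card :=
      Nat.add_le_add card_biUnion_le card_biUnion_le
    _ ≤ (∑ _i : Fin k, 2 ^ (m + 1)) + ∑ _v : Vx k m, 1 :=
      Nat.add_le_add (sum_le_sum (fun i _ => h1 i)) (sum_le_sum (fun v _ => h2 v))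
    _ = k * 2 ^ (m + 1) + (2 + k * (m + 2)) := by
      rw [sum_const, sum_const, card_univ, card_univ, card_V]
      simp

/-! ### Passing to the contraction -/

section transfer

variable {V : Type} {G : SimpleGraph V} {y : V} {H : SimpleGraph {w : V // w ≠ y}}

/-- a subgraph of `H` as a subgraph of `G` -/
def up (hH : ∀ a b, H.Adj a b ↔ G.Adj a.1 b.1) (T : H.Subgraph) : G.Subgraph where
  verts := {v | ∃ h : v ≠ y, (⟨v, h⟩ : {w : V // w ≠ y}) ∈ T.verts}
  Adj a b := ∃ (ha : a ≠ y) (hb : b ≠ y), T.Adj ⟨a, ha⟩ ⟨b, hb⟩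
  adj_sub := by
    rintro a b ⟨ha, hb, h⟩
    exact (hH _ _).1 (T.adj_sub h)
  edge_vert := by
    rintro a b ⟨ha, hb, h⟩
    exact ⟨ha, T.edge_vert h⟩
  symm := ⟨by
    rintro a b ⟨ha, hb, h⟩
    exact ⟨hb, ha, h.symm⟩⟩

/-- a subgraph of `G` as a subgraph of `H` -/
def down (hH : ∀ a b, H.Adj a b ↔ G.Adj a.1 b.1) (T : G.Subgraph) : H.Subgraph where
  verts := {v | v.1 ∈ T.verts}
  Adj a b := T.Adj a.1 b.1
  adj_sub := by
    intro a b h
    exact (hH _ _).2 (T.adj_sub h)
  edge_vert := by
    intro a b h
    exact T.edge_vert h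
  symm := ⟨by
    intro a b h
    exact T.symm.symm _ _ h⟩

theorem down_up (hH : ∀ a b, H.Adj a b ↔ G.Adj a.1 b.1) (T : H.Subgraph) :
    down hH (up hH T) = T := by
  apply Subgraph.ext
  · ext ⟨v, hv⟩
    change (∃ h : v ≠ y, (⟨v, h⟩ : {w : V // w ≠ y}) ∈ T.verts) ↔ _
    simp [hv]
  · funext a b
    apply propext
    change (∃ (ha : a.1 ≠ y) (hb : b.1 ≠ y), T.Adj ⟨a.1, ha⟩ ⟨b.1, hb⟩) ↔ T.Adj a b
    simp [a.2, b.2]

theorem up_down (hH : ∀ a b, H.Adj a b ↔ G.Adj a.1 b.1) (T : G.Subgraph) (hy : y ∉ T.verts) :
    up hH (down hH T) = T := by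
  apply Subgraph.ext
  · ext v
    change (∃ h : v ≠ y, v ∈ T.verts) ↔ _
    constructor
    · rintro ⟨-, h⟩; exact h
    · intro h
      exact ⟨fun h1 => hy (h1 ▸ h), h⟩
  · funext a b
    apply propext
    change (∃ (ha : a ≠ y) (hb : b ≠ y), T.Adj a b) ↔ T.Adj a b
    constructor
    · rintro ⟨-, -, h⟩; exact h
    · intro h
      exact ⟨fun h1 => hy (h1 ▸ T.edge_vert h), fun h1 => hy (h1 ▸ T.edge_vert h.symm), h⟩

/-- the two trees are isomorphic -/
def upIso (hH : ∀ a b, H.Adj a b ↔ G.Adj a.1 b.1) (T : H.Subgraph) : T.coe ≃g (up hH T).coe where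
  toFun v := ⟨v.1.1, v.1.2, v.2⟩
  invFun v := ⟨⟨v.1, v.2.1⟩, v.2.2⟩
  left_inv _ := rfl
  right_inv _ := rfl
  map_rel_iff' := by
    intro a b
    change (∃ (ha : a.1.1 ≠ y) (hb : b.1.1 ≠ y), T.Adj ⟨a.1.1, ha⟩ ⟨b.1.1, hb⟩) ↔ T.Adj a.1 b.1
    simp [a.1.2, b.1.2]

theorem ncard_up (hH : ∀ a b, H.Adj a b ↔ G.Adj a.1 b.1) (T : H.Subgraph) :
    (up hH T).verts.ncard = T.verts.ncard := by
  rw [← Nat.card_coe_set_eq, ← Nat.card_coe_set_eq]
  exact (Nat.card_congr (upIso hH T).toEquiv).symm

open Classical in
theorem sum_transfer [Finite V] (hH : ∀ a b, H.Adj a b ↔ G.Adj a.1 b.1) (F : ℕ → ℚ) :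
    ∑ T ∈ subtrees H, F T.verts.ncard =
      ∑ T ∈ (subtrees G).filter (fun T => y ∉ T.verts), F T.verts.ncard := by
  refine Finset.sum_bij' (fun T _ => up hH T) (fun T _ => down hH T) ?_ ?_ ?_ ?_ ?_
  · intro T hT
    rw [mem_subtrees] at hT
    rw [mem_filter, mem_subtrees]
    refine ⟨(upIso hH T).isTree_iff.1 hT, ?_⟩
    rintro ⟨h, -⟩
    exact h rfl
  · intro T hT
    rw [mem_filter, mem_subtrees] at hT
    rw [mem_subtrees, (upIso hH (down hH T)).isTree_iff, up_down hH T hT.2]
    exact hT.1
  · intro T _
    exact down_up hH T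
  · intro T hT
    rw [mem_filter] at hT
    exact up_down hH T hT.2
  · intro T _
    rw [ncard_up]

end transfer

theorem contract_adj (a b : {w : Vx k m // w ≠ vy}) :
    (contract (flower k m) vx vy).Adj a b ↔ (flower k m).Adj a.1 b.1 := by
  constructor
  · rintro ⟨hne, h | ⟨h1, h2⟩ | ⟨h1, h2⟩⟩
    · exact h
    · rw [h1]
      have hb : b.1 ≠ vx := by
        intro h3
        exact hne (Subtype.ext (h1.trans h3.symm))
      generalize b.1 = c at *
      rcases c with (_ | _) | ⟨i, (_ | (_ | j))⟩ <;> simp_all [flower, base]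
    · rw [h1]
      have hb : a.1 ≠ vx := by
        intro h3
        exact hne (Subtype.ext (h3.trans h1.symm))
      generalize a.1 = c at *
      rcases c with (_ | _) | ⟨i, (_ | (_ | j))⟩ <;> simp_all [flower, base]
  · intro h
    exact ⟨fun h1 => h.ne (congrArg Subtype.val h1), Or.inl h⟩


/-! ### The mean subtree orders -/

/-- the bound for the number of subtrees containing neither `x` nor `y` -/
def eN (k m : ℕ) : ℕ := k * 2 ^ (m + 1) + (2 + k * (m + 2))

theorem ncard_le (T : (flower k m).Subgraph) : T.verts.ncard ≤ 2 + k * (m + 2) := by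
  rw [← card_V (k := k) (m := m), ← Nat.card_eq_fintype_card, ← Set.ncard_univ]
  exact Set.ncard_le_ncard (Set.subset_univ _) (Set.toFinite _)

theorem mu_contract_ge (hpos : 0 < aN k m) (hS : 0 ≤ aS k m) :
    aS k m / (aN k m + eN k m) ≤ mu (contract (flower k m) vx vy) := by
  classical
  unfold mu
  have h1 := sum_transfer (G := flower k m) (H := contract (flower k m) vx vy) contract_adj
    (fun n => n)
  have h2 := sum_transfer (G := flower k m) (H := contract (flower k m) vx vy) contract_adj
    (fun _ => 1)
  rw [sum_const, nsmul_eq_mul, mul_one] at h2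
  have h3 : ∀ F : ℕ → ℚ, ∑ T ∈ (subtrees (flower k m)).filter (fun T => vy ∉ T.verts),
      F T.verts.ncard = ∑ T ∈ (subtrees (flower k m)).filter
        (fun T => vx ∈ T.verts ∧ vy ∉ T.verts), F T.verts.ncard +
      ∑ T ∈ (subtrees (flower k m)).filter
        (fun T => vx ∉ T.verts ∧ vy ∉ T.verts), F T.verts.ncard := by
    intro F
    rw [← sum_filter_add_sum_filter_not _ (fun T => vx ∈ T.verts), filter_filter, filter_filter]
    simp only [and_comm]
  have h4 := h3 (fun n => n)
  have h5 := h3 (fun _ => 1)
  beta_reduce at h1 h2 h4 h5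
  rw [h1, h4, h2, h5, ord_x_no_y]
  rw [sum_const, sum_const, nsmul_eq_mul, nsmul_eq_mul, mul_one, mul_one, card_x_no_y]
  have h6 : ((((subtrees (flower k m)).filter
    (fun T => vx ∉ T.verts ∧ vy ∉ T.verts)).card : ℕ) : ℚ) ≤ eN k m := by
    exact_mod_cast card_no_xy
  have h7 : 0 ≤ ∑ T ∈ (subtrees (flower k m)).filter
        (fun T => vx ∉ T.verts ∧ vy ∉ T.verts), (T.verts.ncard : ℚ) :=
    sum_nonneg (fun T _ => Nat.cast_nonneg _)
  have h8 : (0 : ℚ) ≤ (((subtrees (flower k m)).filter
    (fun T => vx ∉ T.verts ∧ vy ∉ T.verts)).card : ℕ) := Nat.cast_nonneg _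
  rw [div_le_div_iff₀ (by linarith) (by linarith)]
  refine mul_le_mul (by linarith) (by linarith) (by linarith) (by linarith)

theorem mu_le (hpos : 0 < aN k m + bN k m) :
    mu (flower k m) ≤ (aS k m + bS k m +
      (2 + k * (m + 2)) * (eN k m + 2 ^ (2 + k * (m + 2)))) / (aN k m + bN k m) := by
  classical
  unfold mu
  have h3 : ∀ F : ℕ → ℚ, ∑ T ∈ subtrees (flower k m), F T.verts.ncard =
      (∑ T ∈ (subtrees (flower k m)).filter
        (fun T => vx ∈ T.verts ∧ vy ∈ T.verts), F T.verts.ncard +
      ∑ T ∈ (subtrees (flower k m)).filter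
        (fun T => vx ∈ T.verts ∧ vy ∉ T.verts), F T.verts.ncard) +
      (∑ T ∈ (subtrees (flower k m)).filter
        (fun T => vx ∉ T.verts ∧ vy ∈ T.verts), F T.verts.ncard +
      ∑ T ∈ (subtrees (flower k m)).filter
        (fun T => vx ∉ T.verts ∧ vy ∉ T.verts), F T.verts.ncard) := by
    intro F
    rw [← filter_filter, ← filter_filter, ← filter_filter, ← filter_filter,
      sum_filter_add_sum_filter_not, sum_filter_add_sum_filter_not,
      sum_filter_add_sum_filter_not]
  have h4 := h3 (fun n => n)
  have h5 := h3 (fun _ => 1)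
  beta_reduce at h4 h5
  rw [sum_const, nsmul_eq_mul, mul_one] at h5
  rw [h4, h5, ord_x_no_y, ord_x_y]
  rw [sum_const, sum_const, sum_const, sum_const, nsmul_eq_mul, nsmul_eq_mul, nsmul_eq_mul,
    nsmul_eq_mul, mul_one, mul_one, mul_one, mul_one, card_x_no_y, card_x_y]
  have h6 : ((((subtrees (flower k m)).filter
    (fun T => vx ∉ T.verts ∧ vy ∉ T.verts)).card : ℕ) : ℚ) ≤ eN k m := by
    exact_mod_cast card_no_xy
  have h6' : ((((subtrees (flower k m)).filter
    (fun T => vx ∉ T.verts ∧ vy ∈ T.verts)).card : ℕ) : ℚ) ≤ 2 ^ (2 + k * (m + 2)) := by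
    exact_mod_cast card_y_no_x
  have h7 : ∀ S : Finset (flower k m).Subgraph, ∑ T ∈ S, (T.verts.ncard : ℚ) ≤
      (S.card : ℚ) * (2 + k * (m + 2)) := by
    intro S
    rw [← nsmul_eq_mul]
    refine sum_le_card_nsmul _ _ _ (fun T _ => ?_)
    have := ncard_le T
    exact_mod_cast this
  have h8 : (0 : ℚ) ≤ (((subtrees (flower k m)).filter
    (fun T => vx ∉ T.verts ∧ vy ∉ T.verts)).card : ℕ) := Nat.cast_nonneg _
  have h8' : (0 : ℚ) ≤ (((subtrees (flower k m)).filter
    (fun T => vx ∉ T.verts ∧ vy ∈ T.verts)).card : ℕ) := Nat.cast_nonneg _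
  have h9 := h7 ((subtrees (flower k m)).filter (fun T => vx ∉ T.verts ∧ vy ∉ T.verts))
  have h10 := h7 ((subtrees (flower k m)).filter (fun T => vx ∉ T.verts ∧ vy ∈ T.verts))
  have h11 : (0 : ℚ) ≤ 2 + k * (m + 2) := by positivity
  have h12 := mul_le_mul_of_nonneg_right h6 h11
  have h13 := mul_le_mul_of_nonneg_right h6' h11
  refine div_le_div₀ ?_ ?_ hpos ?_
  · have h14 : (0 : ℚ) ≤ aS k m := by
      rw [← ord_x_no_y]; exact sum_nonneg (fun T _ => Nat.cast_nonneg _)
    have h15 : (0 : ℚ) ≤ bS k m := by
      rw [← ord_x_y]; exact sum_nonneg (fun T _ => Nat.cast_nonneg _)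
    positivity
  · linarith
  · linarith

theorem flower_connected : (flower k m).Connected := by
  have h : ∀ v : Vx k m, (flower k m).Reachable v vx := by
    rintro ((_ | _) | ⟨i, (_ | (_ | j))⟩)
    · exact Reachable.refl _
    · exact Adj.reachable (by simp [flower, base])
    · exact Adj.reachable (by simp [flower, base])
    · exact Adj.reachable (by simp [flower, base])
    · have h1 : (flower k m).Adj (vl i j) (vz i) := by simp [flower, base]
      have h2 : (flower k m).Adj (vz i) vx := by simp [flower, base]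
      exact h1.reachable.trans h2.reachable
  have : Nonempty (Vx k m) := ⟨vx⟩
  exact ⟨fun a b => (h a).trans (h b).symm⟩

theorem cnt_a : cnt 8 .a = 1026 := by decide +kernel
theorem cnt_b : cnt 8 .b = 1794 := by decide +kernel
theorem cnt_c : cnt 8 .c = 1024 := by decide +kernel
theorem tot_a : tot 8 .a = 5889 := by decide +kernel
theorem tot_b : tot 8 .b = 10241 := by decide +kernel
theorem tot_c : tot 8 .c = 5888 := by decide +kernel

theorem final_ineq : (aS 70 8 + bS 70 8 +
      (2 + (70 : ℕ) * ((8 : ℕ) + 2)) * (eN 70 8 + 2 ^ (2 + 70 * (8 + 2)))) /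
        (aN 70 8 + bN 70 8) + 1 < aS 70 8 / (aN 70 8 + eN 70 8) := by
  have h : (2 : ℚ) ^ (2 + 70 * (8 + 2)) = (2 ^ 234) ^ 3 := by
    rw [← pow_mul]
  rw [h]
  unfold aS bS aN bN eN
  rw [cnt_a, cnt_b, cnt_c, tot_a, tot_b, tot_c]
  norm_num

theorem aN_pos : 0 < aN 70 8 := by
  unfold aN; rw [cnt_a]; positivity

theorem bN_pos : 0 < bN 70 8 := by
  unfold bN; rw [cnt_b, cnt_c]; positivity

theorem aS_pos : 0 < aS 70 8 := by
  unfold aS; rw [cnt_a, tot_a]; positivity

/-- There is a finite connected graph `G` with an edge `uv` such that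
`μ(G / uv) > μ(G) + 1`: contracting an edge can raise the mean subtree order. -/
theorem result : ∃ (V : Type) (_ : Finite V) (G : SimpleGraph V) (u v : V),
    G.Connected ∧ G.Adj u v ∧ mu G + 1 < mu (contract G u v) := by
  refine ⟨Vx 70 8, inferInstance, flower 70 8, vx, vy, flower_connected, by simp [flower, base], ?_⟩
  have h1 := mu_contract_ge aN_pos aS_pos.le
  have h2 := mu_le (add_pos aN_pos bN_pos)
  have h3 := final_ineq
  linarith

end Pool.Agent.Results.MP_e83d06_co.ContractionFails
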